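import Pool.Agent.helper21.OE.SpecA

/-!
# MP_2e0e07_nt, project OE: row EVT (the value at `(0, 1, 0, 1)` is a scalar symbol)
-/

set_option autoImplicit false

namespace Pool.Agent.OE

open MvPolynomial Matrix

theorem EVT (hEVA : EVA_stmt) (hDTU : DTU_stmt) : EVT_stmt := by
  intro d t hdt ℓ hℓ κ _ π h0 k r j χ hχ φ hφ
  refine ⟨⟨?_, ?_, ?_, ?_, ?_⟩, ?_⟩
  · intro v
    show eval ![0, 1, 0, 1] (φ 0 v) = 0
    rw [hφ.zero_left, map_zero]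
  · intro u
    show eval ![0, 1, 0, 1] (φ u 0) = 0
    rw [hφ.zero_right, map_zero]
  · intro u v w hu hv hw
    show eval ![0, 1, 0, 1] (φ u v) + eval ![0, 1, 0, 1] (φ v w) = eval ![0, 1, 0, 1] (φ u w)
    rw [← map_add, hφ.add u v w hu hv hw]
  · intro c u v hc
    show eval ![0, 1, 0, 1] (φ (c • u) v) = eval ![0, 1, 0, 1] (φ u v)
    rw [hφ.smul_left c u v hc]
  · intro c u v hc
    show eval ![0, 1, 0, 1] (φ u (c • v)) = eval ![0, 1, 0, 1] (φ u v)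
    rw [hφ.smul_right c u v hc]
  · intro γ u v hγ
    have h1 : ((ℓ ^ r : ℕ) : Oz d t) ∣ γ.val 1 0 :=
      (Nat.cast_dvd_cast (pow_dvd_pow ℓ (le_max_left r 1))).trans hγ
    have h2 : ((ℓ : ℕ) : Oz d t) ∣ γ.val 1 0 := by
      refine Dvd.dvd.trans (Nat.cast_dvd_cast ?_) hγ
      exact dvd_pow_self ℓ (by have := le_max_right r 1; omega)
    have h3 : ¬ ((ℓ : ℕ) : ℤ) ∣ (γ.val 1 1).norm := (hDTU d t hdt ℓ hℓ γ (Or.inl h2)).2.1
    obtain ⟨c, hc⟩ := h2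
    have hπ : π ((ℓ : ℕ) : Oz d t) = 0 := by rw [map_natCast, h0]
    have h7 : π (γ.val 1 0) = 0 := by rw [hc, map_mul, hπ, zero_mul]
    have h8 : π (star (γ.val 1 0)) = 0 := by
      rw [hc, star_mul, star_natCast, map_mul, hπ, mul_zero]
    show eval ![0, 1, 0, 1] (φ (γ.val *ᵥ u) (γ.val *ᵥ v)) =
      π (γ.val 1 1 * star (γ.val 1 1)) ^ j * eval ![0, 1, 0, 1] (φ u v)
    rw [hφ.equiv γ u v h1, smul_eval, hEVA π γ.val k (φ u v) (hφ.hom u v) h7 h8, ← mul_assoc,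
      hχ _ h3]

end Pool.Agent.OE
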