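import Pool.Agent.helper21.OE.SpecA

/-!
# MP_2e0e07_nt, project OE: row FCU (the factorisation through level one and weight `j + 2`)
-/

set_option autoImplicit false

namespace Pool.Agent.OE

open MvPolynomial Matrix

theorem FCU_homL {A : Type} [CommRing A] (k : ℕ) (a b a' b' : A) :
    BiHom k ((C a * X 1 - C b * X 0) ^ k * (C a' * X 3 - C b' * X 2) ^ k : Pol A) := by
  have h (w : Fin 4 → ℕ) (i j : Fin 4) (c e : A) (m : ℕ) (hi : w i = m) (hj : w j = m) :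
      IsWeightedHomogeneous w (C c * X i - C e * X j : Pol A) m := by
    have h1 : IsWeightedHomogeneous w (C c * X i : Pol A) m := by
      have h3 := (isWeightedHomogeneous_C w c).mul (isWeightedHomogeneous_X A w i)
      rwa [zero_add, hi] at h3
    have h2 : IsWeightedHomogeneous w (C e * X j : Pol A) m := by
      have h3 := (isWeightedHomogeneous_C w e).mul (isWeightedHomogeneous_X A w j)
      rwa [zero_add, hj] at h3
    exact (weightedHomogeneousSubmodule A w m).sub_mem h1 h2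
  constructor
  · have h1 := ((h (![1, 1, 0, 0]) 1 0 a b 1 rfl rfl).pow k).mul
      ((h (![1, 1, 0, 0]) 3 2 a' b' 0 rfl rfl).pow k)
    simpa using h1
  · have h1 := ((h (![0, 0, 1, 1]) 1 0 a b 0 rfl rfl).pow k).mul
      ((h (![0, 0, 1, 1]) 3 2 a' b' 1 rfl rfl).pow k)
    simpa using h1

theorem FCU_homU {d t : ℤ} {κ : Type} [Field κ] (π : Oz d t →+* κ) (ℓ k : ℕ)
    (ψ : Vec d t → Vec d t → κ) (u v : Vec d t) : BiHom k (bU π ℓ k ψ u v) := by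
  have h (w : Fin 4 → ℕ) (P : Pol κ) (hP : IsWeightedHomogeneous w P k) (c : κ) :
      C c * P ∈ weightedHomogeneousSubmodule κ w k := by
    rw [C_mul']
    exact (weightedHomogeneousSubmodule κ w k).smul_mem c hP
  constructor
  · exact Submodule.sum_mem (weightedHomogeneousSubmodule κ _ k)
      fun x _ => h _ _ (FCU_homL k _ _ _ _).1 _
  · exact Submodule.sum_mem (weightedHomogeneousSubmodule κ _ k)
      fun x _ => h _ _ (FCU_homL k _ _ _ _).2 _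

/-- `w ↦ bU k (evS w)` -/
noncomputable def FCU_LU {d t : ℤ} {κ : Type} [Field κ] (π : Oz d t →+* κ) (ℓ k : ℕ) :
    Sy d t κ →ₗ[κ] Sy d t κ where
  toFun w := bU π ℓ k (evS w)
  map_add' a b := by
    ext1 u; ext1 v
    simp [bU, evS, add_mul, Finset.sum_add_distrib]
  map_smul' c a := by
    ext1 u; ext1 v
    simp [bU, evS, Finset.smul_sum, smul_eq_C_mul, mul_assoc]

/-- `w ↦ bT k (evS w)` -/
noncomputable def FCU_LT {d t : ℤ} {κ : Type} [Field κ] (π : Oz d t →+* κ) (ℓ : ℕ)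
    (F : Finset (GO d t)) (k : ℕ) : Sy d t κ →ₗ[κ] Sy d t κ where
  toFun w := bT π ℓ F k (evS w)
  map_add' a b := by
    ext1 u; ext1 v
    simp [bT, evS, add_mul, Finset.sum_add_distrib]
  map_smul' c a := by
    ext1 u; ext1 v
    simp [bT, evS, Finset.smul_sum, smul_eq_C_mul, mul_assoc]

section

variable {d t : ℤ} (hdt : IsEuc d t) {ℓ : ℕ} (hℓ : ℓ.Prime) {F : Finset (GO d t)}
  (hF : IsReps ℓ F) {κ : Type} [Field κ] (π : Oz d t →+* κ) (hκ : ((ℓ : ℕ) : κ) = 0)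

include hdt hℓ hF hκ

omit hκ in
/-- the powers of `T` preserve level one -/
theorem FCU_T (hTSU : TSU_stmt) (k : ℕ) (w : Sy d t κ) (hw : IsSym π k 1 (fun _ => 1) w) (s : ℕ) :
    IsSym π k 1 (fun _ => 1) (((opT π ℓ F) ^ s) w) := by
  induction s with
  | zero => simpa using hw
  | succ s ih =>
    rw [pow_succ', Module.End.mul_apply]
    exact hTSU d t hdt ℓ hℓ F hF π k _ ih

/-- (i) `uS^s (evS w) = evS (T^s w)` -/
theorem FCU_i (hFUA : FUA_stmt) (hFUD : FUD_stmt) (hEVT : EVT_stmt) (hTSU : TSU_stmt) (j : ℕ)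
    (hj : 1 ≤ j) (w : Sy d t κ) (hw : IsSym π j 1 (fun _ => 1) w) (s : ℕ) :
    (uS ℓ)^[s] (evS w) = evS (((opT π ℓ F) ^ s) w) := by
  induction s with
  | zero => simp
  | succ s ih =>
    have hs := FCU_T hdt hℓ hF π hTSU j w hw s
    have hsc : IsSc π j (ℓ ^ 1) (evS (((opT π ℓ F) ^ s) w)) := by
      have h := hEVT d t hdt ℓ hℓ π hκ j 0 j (fun _ => 1) (fun x _ => one_mul _)
        (((opT π ℓ F) ^ s) w) (by rw [pow_zero]; exact hs)
      rwa [max_eq_right (by omega)] at h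
    rw [Function.iterate_succ_apply', ih, pow_succ', Module.End.mul_apply]
    obtain ⟨_, hb, _⟩ := hFUA d t ℓ F π hκ j
    rw [hb _ hs.hom, hFUD d t hdt ℓ hℓ F hF π hκ j hj _ hsc]

/-- (ii) `uS^(s+1) ψ = evS (T^s (bT j ψ))` -/
theorem FCU_ii (hFUA : FUA_stmt) (hFUD : FUD_stmt) (hEVT : EVT_stmt) (hTSU : TSU_stmt)
    (hBJH : BJH_stmt) (j : ℕ) (hj : 1 ≤ j)
    (ψ : Vec d t → Vec d t → κ) (hψ : IsSc π j (ℓ ^ 1) ψ) (s : ℕ) :
    (uS ℓ)^[s + 1] ψ = evS (((opT π ℓ F) ^ s) (bT π ℓ F j ψ)) := by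
  rw [Function.iterate_succ_apply, ← hFUD d t hdt ℓ hℓ F hF π hκ j hj ψ hψ,
    FCU_i hdt hℓ hF π hκ hFUA hFUD hEVT hTSU j hj _ (hBJH d t hdt ℓ hℓ F hF π hκ j ψ hψ)]

omit hF in
/-- the level of scalar symbols goes down -/
theorem FCU_low (hUSD : USD_stmt) (j r : ℕ) (ψ : Vec d t → Vec d t → κ)
    (hψ : IsSc π j (ℓ ^ (r + 1)) ψ) : IsSc π j (ℓ ^ 1) ((uS ℓ)^[r] ψ) := by
  induction r generalizing ψ with
  | zero => simpa using hψ
  | succ r ih =>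
    rw [Function.iterate_succ_apply]
    exact ih _ (hUSD d t hdt ℓ hℓ π hκ (r + 1) j (by omega) ψ hψ)

omit hdt hℓ hF in
/-- (iii) -/
theorem FCU_iii (hFUA : FUA_stmt) (k : ℕ) (φ : Sy d t κ) (hφ : ∀ u v, BiHom k (φ u v)) (s : ℕ) :
    ((opU π ℓ) ^ (s + 1)) φ = bU π ℓ k ((uS ℓ)^[s] (evS φ)) := by
  obtain ⟨ha, _, hc⟩ := hFUA d t ℓ ∅ π hκ k
  induction s with
  | zero => simpa using ha φ hφ
  | succ s ih =>
    rw [pow_succ', Module.End.mul_apply, ih, ha _ (FCU_homU π ℓ k _), hc,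
      Function.iterate_succ_apply']

/-- (iv) -/
theorem FCU_iv (hFUA : FUA_stmt) (hFUD : FUD_stmt) (hEVT : EVT_stmt) (hTSU : TSU_stmt) (k : ℕ)
    (hk : 1 ≤ k) (φ : Sy d t κ) (hφ : IsSym π k 1 (fun _ => 1) φ) (s : ℕ) :
    ((opT π ℓ F) ^ (s + 1)) φ = bT π ℓ F k ((uS ℓ)^[s] (evS φ)) := by
  rw [pow_succ', Module.End.mul_apply]
  obtain ⟨_, hb, _⟩ := hFUA d t ℓ F π hκ k
  rw [hb _ (FCU_T hdt hℓ hF π hTSU k φ hφ s).hom,
    FCU_i hdt hℓ hF π hκ hFUA hFUD hEVT hTSU k hk φ hφ s]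

end

theorem FCU (hFUA : FUA_stmt) (hFUD : FUD_stmt) (hEVT : EVT_stmt) (hUSD : USD_stmt)
    (hBJH : BJH_stmt) (hTSU : TSU_stmt) (hKZE : KZE_stmt) : FCU_stmt := by
  intro d t hdt ℓ hℓ hℓ2 F hF κ _ π hκ k r j χ hj hper hcls n
  rcases Nat.eq_zero_or_pos r with rfl | hr
  · have hχ : ∀ x, χ x = 1 := fun x => by
      rw [hper x 1 (by simp), map_one]
    have hφ1 (φ : Sy d t κ) (hφ : IsSym π k (ℓ ^ 0) χ φ) : IsSym π k 1 (fun _ => 1) φ := by
      have h1 : (χ : Oz d t → κ) = fun _ => 1 := funext hχ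
      rwa [h1, pow_zero] at hφ
    rcases Nat.eq_zero_or_pos k with rfl | hk
    · refine ⟨0, 0, fun φ hφ => ?_⟩
      have h2 : (2 : κ) ≠ 0 := by
        intro h2
        have hc : IsCoprime (2 : ℤ) (ℓ : ℤ) := by
          exact_mod_cast Nat.isCoprime_iff_coprime.2
            ((Nat.coprime_primes Nat.prime_two hℓ).2 (Ne.symm hℓ2))
        obtain ⟨a, b, hab⟩ := hc
        have h3 := congrArg (Int.cast : ℤ → κ) hab
        push_cast at h3
        rw [h2, hκ] at h3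
        simp at h3
      have h0 : φ = 0 := hKZE d t hdt π h2 φ (hφ1 φ hφ)
      rw [h0, map_zero]
      exact Submodule.zero_mem _
    · refine ⟨FCU_LT π ℓ F k, n + 2, fun φ hφ => ?_⟩
      have hψ : IsSc π j (ℓ ^ 1) (evS φ) := hEVT d t hdt ℓ hℓ π hκ k 0 j χ hcls φ hφ
      refine ⟨((opT π ℓ F) ^ n) (bT π ℓ F j (evS φ)),
        ⟨bT π ℓ F j (evS φ), hBJH d t hdt ℓ hℓ F hF π hκ j _ hψ, rfl⟩, ?_⟩
      change bT π ℓ F k (evS (((opT π ℓ F) ^ n) (bT π ℓ F j (evS φ)))) = _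
      rw [← FCU_ii hdt hℓ hF π hκ hFUA hFUD hEVT hTSU hBJH j hj _ hψ n,
        ← FCU_iv hdt hℓ hF π hκ hFUA hFUD hEVT hTSU k hk φ (hφ1 φ hφ) (n + 1)]
      rw [op, if_pos rfl]
  · obtain ⟨r, rfl⟩ : ∃ r', r = r' + 1 := ⟨r - 1, by omega⟩
    refine ⟨FCU_LU π ℓ k, (n + 1 + r) + 1, fun φ hφ => ?_⟩
    have hψ : IsSc π j (ℓ ^ (r + 1)) (evS φ) := by
      have h := hEVT d t hdt ℓ hℓ π hκ k (r + 1) j χ hcls φ hφ
      rwa [max_eq_left (by omega)] at h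
    have hψ' := FCU_low hdt hℓ π hκ hUSD j r _ hψ
    refine ⟨((opT π ℓ F) ^ n) (bT π ℓ F j ((uS ℓ)^[r] (evS φ))),
      ⟨bT π ℓ F j ((uS ℓ)^[r] (evS φ)), hBJH d t hdt ℓ hℓ F hF π hκ j _ hψ', rfl⟩, ?_⟩
    change bU π ℓ k (evS (((opT π ℓ F) ^ n) (bT π ℓ F j ((uS ℓ)^[r] (evS φ))))) = _
    rw [← FCU_ii hdt hℓ hF π hκ hFUA hFUD hEVT hTSU hBJH j hj _ hψ' n,
      ← Function.iterate_add_apply, ← FCU_iii π hκ hFUA k φ hφ.hom (n + 1 + r)]
    rw [op, if_neg (by omega)]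

end Pool.Agent.OE
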